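import Pool.Agent.Run7.h788.SlpGen
import Pool.Agent.Y787.PInst

/-!
# Polynomials computed with few additions at the `p`-adic logarithms of almost all tuples of integers

For every `g, m, L` there is a number `c`, which does not depend on `p`, such that for all primes `p`,
all `x ≥ 16` and ARBITRARY elements `t_1, ..., t_g` of the algebraic closure of `ℚ_p`, for all but at
most `c (log log x) ^ c / log x · x ^ m` of the `m`-tuples `n` of integers in `[1, x]` the `p`-adic
logarithms `log_p n_1, …, log_p n_m` have the following property: no nonzero polynomial in `m`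
variables which can be computed from the variables, the numbers `t_1, ..., t_g` and algebraic numbers
with at most `L` additions and arbitrarily many multiplications vanishes at the point
`(log_p n_1, …, log_p n_m)`.  There is no bound for the degrees of the polynomials.

If the `p`-adic logarithms of algebraic numbers which are linearly independent over `ℚ` are
algebraically independent, then this is true without exceptions other than multiplicatively dependent
tuples (for `g = 0` and `p` prime to the `n_i`).  All starting results on this problem concern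
relations of bounded (or slowly growing) degree.

The complex analogue is the starting result `MP_60829e_nt.FewAdditions`.

The proof.  By Brumer's theorem (starting files `Pool.Agent.W245.PB`) the logarithms of the members of
a multiplicative cube of integers form a cube `y₀ + ∑_{i ∈ S} w_i` with linearly independent `w_i`.  A
cube of large dimension contains a point `y` for which no polynomial computed with few additions
vanishes; this is proved with derivations of the algebraic closure of `ℚ_p` over the field of algebraic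
numbers (starting file `Pool.Agent.R351.SlpCube`).  Sets of integers without such cubes are small, and
the numbers `t_j` are arbitrary, so that induction on `m` applies (`Pool.Agent.Run7.h788.SlpGen`).
-/

set_option autoImplicit false

namespace Pool.Agent.Results.MP_c50dba_nt.FewAdditions

open Pool.Agent.R351

/-- `L` restricts to the Iwasawa logarithm: it is additive on products of nonzero numbers, it vanishes
at `p`, and it is given by the usual series on the open unit disc around `1`. -/
structure IsIwasawaLog (p : ℕ) [Fact p.Prime] (L : PadicAlgCl p → PadicAlgCl p) : Prop where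
  mul : ∀ x y : PadicAlgCl p, x ≠ 0 → y ≠ 0 → L (x * y) = L x + L y
  prime : L ((p : ℕ) : PadicAlgCl p) = 0
  ser : ∀ z : PadicAlgCl p, ‖z‖ < 1 →
    HasSum (fun n : ℕ => (-1 : PadicAlgCl p) ^ n * z ^ (n + 1) / ((n : PadicAlgCl p) + 1))
      (L (1 + z))

/-- The polynomials `G 0, …, G (L - 1)` are computed with one addition each: `G l` is the sum of two
products of powers of the variables, of the numbers `t o`, of the earlier polynomials
`G 0, …, G (l - 1)`, and of an algebraic number. -/
def Computed {p : ℕ} [Fact p.Prime] {g m : ℕ} (t : Fin g → PadicAlgCl p) (L : ℕ)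
    (G : ℕ → MvPolynomial (Fin m) (PadicAlgCl p)) : Prop :=
  ∃ (c : ℕ → Bool → algebraicClosure ℚ (PadicAlgCl p)) (u : ℕ → Bool → Fin g → ℕ)
    (a : ℕ → Bool → Fin m → ℕ) (h : ℕ → Bool → ℕ → ℕ), ∀ l < L, G l = ∑ b : Bool,
      MvPolynomial.C ((c l b : PadicAlgCl p) * ∏ o, t o ^ u l b o) *
        (∏ i, MvPolynomial.X i ^ a l b i) * ∏ l' ∈ Finset.range l, G l' ^ h l b l'

theorem Computed.cmp {p : ℕ} [Fact p.Prime] {g m : ℕ} {t : Fin g → PadicAlgCl p} {L : ℕ}
    {G : ℕ → MvPolynomial (Fin m) (PadicAlgCl p)} (h : Computed t L G) :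
    Cmp (algebraicClosure ℚ (PadicAlgCl p)) (btm m t) L G := by
  obtain ⟨c, u, a, e, h⟩ := h
  refine ⟨c, fun l b j => Sum.elim (u l b) (a l b) j, e, fun l hl => ?_⟩
  rw [h l hl]
  refine Finset.sum_congr rfl fun b _ => ?_
  rw [Fintype.prod_sum_type, Algebra.smul_def, IsScalarTower.algebraMap_apply
    (algebraicClosure ℚ (PadicAlgCl p)) (PadicAlgCl p) (MvPolynomial (Fin m) (PadicAlgCl p))]
  unfold btm
  simp only [Sum.elim_inl, Sum.elim_inr, map_mul, map_prod, map_pow, MvPolynomial.algebraMap_eq]
  have h1 : algebraMap (algebraicClosure ℚ (PadicAlgCl p)) (PadicAlgCl p) (c l b) =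
    (c l b : PadicAlgCl p) := rfl
  rw [h1]
  ring

/-- **Main result.** -/
theorem result (g m L : ℕ) : ∃ c : ℕ, ∀ x : ℕ, 16 ≤ x → ∀ (p : ℕ) [Fact p.Prime]
    (lg : PadicAlgCl p → PadicAlgCl p), IsIwasawaLog p lg → ∀ t : Fin g → PadicAlgCl p,
    ∃ E : Finset (Fin m → ℕ),
      (E.card : ℝ) ≤ c * Real.log (Real.log x) ^ c / Real.log x * x ^ m ∧
      ∀ n : Fin m → ℕ, (∀ i, 0 < n i ∧ n i ≤ x) → n ∉ E →
      ∀ G : ℕ → MvPolynomial (Fin m) (PadicAlgCl p), Computed t L G →
      ∀ j < L, G j ≠ 0 →
        MvPolynomial.eval (fun i => lg ((n i : ℕ) : PadicAlgCl p)) (G j) ≠ 0 := by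
  classical
  obtain ⟨c, hc⟩ := Run7.h788.rate_slp L m g
  refine ⟨c, fun x hx p _ lg hlg t => ?_⟩
  have hL : Pool.Agent.W245.PB.IsIwasawaLog p lg := ⟨hlg.mul, hlg.prime, hlg.ser⟩
  have hcount : Countable (algebraicClosure ℚ (PadicAlgCl p)) := by
    have hac : IsAlgClosure ℚ (algebraicClosure ℚ (PadicAlgCl p)) :=
      algebraicClosure.isAlgClosure ℚ (PadicAlgCl p)
    have h2 : Algebra.IsAlgebraic ℚ (algebraicClosure ℚ (PadicAlgCl p)) := hac.isAlgebraic
    have h3 : Cardinal.mk (algebraicClosure ℚ (PadicAlgCl p)) ≤
        max (Cardinal.mk ℚ) Cardinal.aleph0 :=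
      Algebra.IsAlgebraic.cardinalMk_le_max ℚ (algebraicClosure ℚ (PadicAlgCl p))
    rw [← Cardinal.mk_le_aleph0_iff]
    refine h3.trans (max_le ?_ le_rfl)
    exact Cardinal.mk_le_aleph0
  have hunc := Pool.Agent.Y787.uncountable_padicAlgCl (p := p)
  have hac : IsAlgClosed (algebraicClosure ℚ (PadicAlgCl p)) :=
    (algebraicClosure.isAlgClosure ℚ (PadicAlgCl p)).isAlgClosed
  refine ⟨(Fintype.piFinset fun _ : Fin m => Finset.Ioc 0 x).filter (fun n =>
    ¬ GoodT (algebraicClosure ℚ (PadicAlgCl p)) t L (fun i => lg ((n i : ℕ) : PadicAlgCl p))),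
    hc x hx (algebraicClosure ℚ (PadicAlgCl p)) (PadicAlgCl p) Run7.h788.infTrd_of_countable
      (fun n : ℕ => lg (n : PadicAlgCl p)) hL.logLike t _
      (Finset.filter_subset _ _) (fun n hn => (Finset.mem_filter.1 hn).2), ?_⟩
  intro n hn hnE G hG j hj hG0 h0
  have hg : GoodT (algebraicClosure ℚ (PadicAlgCl p)) t L
      (fun i => lg ((n i : ℕ) : PadicAlgCl p)) := by
    by_contra hcon
    apply hnE
    rw [Finset.mem_filter, Fintype.mem_piFinset]
    exact ⟨fun i => Finset.mem_Ioc.2 (hn i), hcon⟩
  exact hG0 (hg G hG.cmp j hj h0)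

end Pool.Agent.Results.MP_c50dba_nt.FewAdditions
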