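import Mathlib
import Pool.Agent.Run7.h788.FieldDef
import Pool.Agent.Y787.PInst

/-!
# `p`-adic logarithms with many conjugates

Let `C` be the algebraic closure of `ℚ_p`, let `ℚ̄ ⊂ C` be the field of algebraic numbers, and let
`LogForms` be the space of all linear combinations, with algebraic coefficients, of `1` and of values of
the Iwasawa logarithm at algebraic numbers.  Let `E` be an arbitrary field between `ℚ_p` and `C`, for
instance `ℚ_p`, and let `y_1, …, y_m` be ARBITRARY elements of `E`, for instance all monomials of degree at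
most `D` in the logarithms of algebraic numbers in `E`, or in arbitrary elements of `E`.

Let `l_1, …, l_s` be elements of `LogForms` with many conjugates over `E`: every nontrivial linear
combination `c_1 l_1 + ⋯ + c_s l_s` with algebraic coefficients has `m (m - 1) + 1` conjugates over `E`
which are, together with `1`, linearly independent over `ℚ̄`.  We prove that there is no relation

  `w_0 + w_1 l_1 + ⋯ + w_s l_s = 0`

with coefficients `w_j` in the space `ℚ̄ y_1 + ⋯ + ℚ̄ y_m`, except for the trivial one.

For instance let `β_1, …, β_s` be algebraic numbers, `N = m (m - 1) + 1`, and let `σ_1, …, σ_N` be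
automorphisms of `C` over `E` such that the `s N` logarithms `log σ_i(β_j)` are linearly independent over
`ℚ` (they are independent over `ℚ̄`, together with `1`, by the theorem of Brumer); then `l_j = log β_j` has
the property above.  So `log β_1, …, log β_s` satisfy no nontrivial linear relation whose coefficients are
polynomials of degree at most `D` in `r` elements `z_1, …, z_r` of `E`, if the `β_j` have
`m (m - 1) + 1` independent conjugates, where `m` is the number of monomials.  For `s = 1`: `log β` is not
a quotient `P(z) / Q(z)` of two such polynomials.  The conjecture predicts this for all algebraic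
numbers `β` with `log β` outside the span of the `z_i` if the `z_i` are `p`-adic logarithms of algebraic
numbers.  In contrast to the results on almost all numbers the numbers `β` are explicit here.

The proof.  Let `y_1, …, y_m` be linearly independent.  The relation is of the form `∑ y_k λ_k = 0` with
`λ_k` in `LogForms`.  The Galois group of `C / ℚ_p` commutes with the Iwasawa logarithm
(`Run7.h788.log_aut`), so that `∑ y_k σ(λ_k) = 0` for all `σ` over `E`.  By the hyperplane case of the
linear subgroup theorem of Waldschmidt and Roy over the `p`-adic numbers the vectors `(σ(λ_k))_k` span a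
space of dimension at most `m (m - 1)`.
-/

set_option autoImplicit false

namespace Pool.Agent.Results.MP_c50dba_nt.ManyConjugates

/-- `L` is the Iwasawa `p`-adic logarithm on the algebraic closure of `ℚ_p`. -/
def IsIwasawaLog (p : ℕ) [Fact p.Prime] (L : PadicAlgCl p → PadicAlgCl p) : Prop :=
  (∀ x y : PadicAlgCl p, x ≠ 0 → y ≠ 0 → L (x * y) = L x + L y) ∧
  L ((p : ℕ) : PadicAlgCl p) = 0 ∧
  ∀ z : PadicAlgCl p, ‖z‖ < 1 →
    HasSum (fun n : ℕ => (-1 : PadicAlgCl p) ^ n * z ^ (n + 1) / ((n : PadicAlgCl p) + 1))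
      (L (1 + z))

/-- The linear forms in `1` and the logarithms `L α` of nonzero algebraic numbers `α`, with algebraic
coefficients. -/
noncomputable def LogForms {p : ℕ} [Fact p.Prime] (L : PadicAlgCl p → PadicAlgCl p) :
    Submodule (algebraicClosure ℚ (PadicAlgCl p)) (PadicAlgCl p) :=
  Submodule.span (algebraicClosure ℚ (PadicAlgCl p))
    ({1} ∪ {z | ∃ α : PadicAlgCl p, α ≠ 0 ∧ IsAlgebraic ℚ α ∧ z = L α})

/-- `y` is a conjugate of `x` over `E`. -/
def IsConjugate {p : ℕ} [Fact p.Prime] (E : IntermediateField ℚ_[p] (PadicAlgCl p))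
    (x y : PadicAlgCl p) : Prop :=
  ∃ σ : PadicAlgCl p ≃ₐ[ℚ_[p]] PadicAlgCl p, (∀ z ∈ E, σ z = z) ∧ y = σ x

/-- `x` has `n` conjugates over `E` which are, together with `1`, linearly independent over the
algebraic numbers. -/
def HasConjugates {p : ℕ} [Fact p.Prime] (E : IntermediateField ℚ_[p] (PadicAlgCl p)) (n : ℕ)
    (x : PadicAlgCl p) : Prop :=
  ∃ v : Fin n → PadicAlgCl p, (∀ i, IsConjugate E x (v i)) ∧
    LinearIndependent (algebraicClosure ℚ (PadicAlgCl p))
      (Fin.cons 1 v : Fin (n + 1) → PadicAlgCl p)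

theorem core {p : ℕ} [Fact p.Prime] {L : PadicAlgCl p → PadicAlgCl p}
    (hL : IsIwasawaLog p L) (E : IntermediateField ℚ_[p] (PadicAlgCl p)) (d N : ℕ)
    (y : Fin d → PadicAlgCl p) (hy : ∀ k, y k ∈ E)
    (hli : LinearIndependent (algebraicClosure ℚ (PadicAlgCl p)) y) (hN : d * (d - 1) < N)
    (s : ℕ) (l : Fin s → PadicAlgCl p) (hl : ∀ j, l j ∈ LogForms L)
    (hconj : ∀ c : Fin s → algebraicClosure ℚ (PadicAlgCl p), c ≠ 0 →
      HasConjugates E N (∑ j, c j • l j))
    (w₀ : PadicAlgCl p) (w : Fin s → PadicAlgCl p)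
    (hw₀ : w₀ ∈ Submodule.span (algebraicClosure ℚ (PadicAlgCl p)) (Set.range y))
    (hw : ∀ j, w j ∈ Submodule.span (algebraicClosure ℚ (PadicAlgCl p)) (Set.range y))
    (h : w₀ + ∑ j, w j * l j = 0) : ∀ j, w j = 0 := by
  have hL' : Pool.Agent.W245.PB.IsIwasawaLog p L := ⟨hL.1, hL.2.1, hL.2.2⟩
  obtain ⟨c₀, hc₀⟩ := (Submodule.mem_span_range_iff_exists_fun _).1 hw₀
  choose c hc using fun j => (Submodule.mem_span_range_iff_exists_fun _).1 (hw j)
  -- the coefficients of the `y k`
  let lam : Fin d → PadicAlgCl p := fun k => (c₀ k : PadicAlgCl p) + ∑ j, c j k • l j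
  have hsm : ∀ (k : algebraicClosure ℚ (PadicAlgCl p)) (z : PadicAlgCl p),
      k • z = (k : PadicAlgCl p) * z := fun k z => Algebra.smul_def k z
  have hlam : ∀ k, lam k ∈ LogForms L := by
    intro k
    refine Submodule.add_mem _ ?_ (Submodule.sum_mem _ fun j _ => Submodule.smul_mem _ _ (hl j))
    have h1 : (c₀ k : PadicAlgCl p) = c₀ k • (1 : PadicAlgCl p) := by rw [hsm, mul_one]
    rw [h1]
    exact Submodule.smul_mem _ _ (Submodule.subset_span (Or.inl rfl))
  have hrel : ∑ k, y k * lam k = 0 := by
    rw [← h, ← hc₀]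
    have h1 : ∀ j, w j * l j = ∑ k, y k * (c j k • l j) := by
      intro j
      rw [← hc j, Finset.sum_mul]
      refine Finset.sum_congr rfl fun k _ => ?_
      rw [hsm, hsm]
      ring
    rw [Finset.sum_congr rfl fun j _ => h1 j, Finset.sum_comm, ← Finset.sum_add_distrib]
    refine Finset.sum_congr rfl fun k _ => ?_
    change y k * ((c₀ k : PadicAlgCl p) + ∑ j, c j k • l j) = _
    rw [mul_add, Finset.mul_sum, hsm, mul_comm (y k)]
  by_contra hcon
  push Not at hcon
  obtain ⟨j₀, hj₀⟩ := hcon
  have hk : ∃ k, (fun j => c j k) ≠ 0 := by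
    by_contra hcon2
    push Not at hcon2
    apply hj₀
    rw [← hc j₀]
    refine Finset.sum_eq_zero fun k _ => ?_
    rw [congrFun (hcon2 k) j₀]
    exact zero_smul _ _
  obtain ⟨k₀, hk₀⟩ := hk
  obtain ⟨v, hv, hvli⟩ := hconj _ hk₀
  choose σ hσ hσv using hv
  have hbound := (Pool.Agent.Y787.hypC_padic hL').hyp d N y (fun k i => σ i (lam k)) hli
    (fun k i => Run7.h788.logs_stable hL' (σ i) (hlam k)) (fun i => by
      have h1 : σ i (∑ k, y k * lam k) = 0 := by rw [hrel, map_zero]
      rw [map_sum] at h1
      rw [← h1]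
      refine Finset.sum_congr rfl fun k _ => ?_
      rw [map_mul, hσ i _ (hy k)]) (by
      rw [Fintype.linearIndependent_iff]
      intro g hg
      have h1 := congrFun hg k₀
      rw [Finset.sum_apply] at h1
      simp only [Pi.smul_apply, Pi.zero_apply] at h1
      have h2 : ∀ i, σ i (lam k₀) = ((Run7.h788.res (σ i) (c₀ k₀) :
          algebraicClosure ℚ (PadicAlgCl p)) : PadicAlgCl p) + v i := by
        intro i
        rw [hσv i]
        change σ i ((c₀ k₀ : PadicAlgCl p) + ∑ j, c j k₀ • l j) = _
        rw [map_add]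
        rfl
      have h3 := Fintype.linearIndependent_iff.1 hvli
        (Fin.cons (∑ i, g i * Run7.h788.res (σ i) (c₀ k₀)) g) (by
          rw [Fin.sum_univ_succ]
          simp only [Fin.cons_zero, Fin.cons_succ]
          rw [← h1]
          simp only [h2, hsm]
          push_cast
          rw [mul_one, ← Finset.sum_add_distrib]
          refine Finset.sum_congr rfl fun i _ => ?_
          ring)
      intro i
      have h4 := h3 i.succ
      rwa [Fin.cons_succ] at h4)
  omega

/-- **Main result.** -/
theorem result (p : ℕ) [Fact p.Prime] (L : PadicAlgCl p → PadicAlgCl p) (hL : IsIwasawaLog p L)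
    (E : IntermediateField ℚ_[p] (PadicAlgCl p)) (m : ℕ) (y : Fin m → PadicAlgCl p)
    (hy : ∀ i, y i ∈ E) (s : ℕ) (l : Fin s → PadicAlgCl p) (hl : ∀ j, l j ∈ LogForms L)
    (hconj : ∀ c : Fin s → algebraicClosure ℚ (PadicAlgCl p), c ≠ 0 →
      HasConjugates E (m * (m - 1) + 1) (∑ j, c j • l j))
    (w₀ : PadicAlgCl p) (w : Fin s → PadicAlgCl p)
    (hw₀ : w₀ ∈ Submodule.span (algebraicClosure ℚ (PadicAlgCl p)) (Set.range y))
    (hw : ∀ j, w j ∈ Submodule.span (algebraicClosure ℚ (PadicAlgCl p)) (Set.range y))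
    (h : w₀ + ∑ j, w j * l j = 0) : w₀ = 0 ∧ ∀ j, w j = 0 := by
  obtain ⟨κ, a, ha, hspan, hli⟩ :=
    exists_linearIndependent' (algebraicClosure ℚ (PadicAlgCl p)) y
  have hfin : Finite κ := Finite.of_injective a ha
  let : Fintype κ := Fintype.ofFinite κ
  let e : Fin (Fintype.card κ) ≃ κ := (Fintype.equivFin κ).symm
  have hcard : Fintype.card κ ≤ m := by
    have := Fintype.card_le_of_injective a ha
    rwa [Fintype.card_fin] at this
  have hrange : Set.range (fun i => y (a (e i))) = Set.range (y ∘ a) := by
    have : (fun i => y (a (e i))) = (y ∘ a) ∘ e := rfl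
    rw [this, e.surjective.range_comp]
  have key : ∀ j, w j = 0 := by
    refine core hL E (Fintype.card κ) (m * (m - 1) + 1) (fun i => y (a (e i))) (fun i => hy _)
      (hli.comp e e.injective) ?_ s l hl hconj w₀ w ?_ ?_ h
    · have : Fintype.card κ * (Fintype.card κ - 1) ≤ m * (m - 1) :=
        Nat.mul_le_mul hcard (Nat.sub_le_sub_right hcard 1)
      omega
    · rw [hrange, hspan]
      exact hw₀
    · intro j
      rw [hrange, hspan]
      exact hw j
  refine ⟨?_, key⟩
  rw [Finset.sum_eq_zero (fun j _ => by rw [key j, zero_mul]), add_zero] at h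
  exact h

end Pool.Agent.Results.MP_c50dba_nt.ManyConjugates
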