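import Pool.Agent.Run7.h788.RandFree
import Pool.Agent.R350.Inst

/-!
# Random combinations of `p`-adic logarithms: exponentially few have an algebraic relation

Let `ℚ̄` be the field of algebraic numbers in the algebraic closure of `ℚ_p`, and for ARBITRARY elements
`γ_1, …, γ_g` of the algebraic closure of `ℚ_p` let `𝓛(γ)` be the space of all linear combinations, with
algebraic coefficients, of `1`, of `γ_1, …, γ_g` and of all values of the Iwasawa logarithm at algebraic
numbers.  Let `W` be a `ℚ̄`-space of dimension at most `m` of arbitrary elements of the algebraic closure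
of `ℚ_p`.  There is a space `F ⊆ 𝓛(γ)` of bounded dimension, which depends only on `W` and `γ`, and
`F = ℚ̄` for `W = ℚ̄`, with the following property.

For every `j ≤ n` let `λ_{j,1}, …, λ_{j,k}` be arbitrary elements of `𝓛(γ)` which are linearly
independent over `ℚ̄`; for instance, by the theorem of Brumer, any `p`-adic logarithms of algebraic
numbers which are linearly independent over `ℚ` (for different `j` they may be the same).  Let `ζ_j` be
an arbitrary element of `𝓛(γ)`, for instance `0` or `γ_j`.  For a matrix `a = (a_{j,i})` with entries in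
a finite set `X` of rational numbers, for instance `{0, 1}`, let

  `y_j = ζ_j + ∑_i a_{j,i} λ_{j,i}`.

Then for all but `C |X| ^ (n k - δ k)` of the `|X| ^ (n k)` matrices `a` the `y_j` are linearly
independent over `ℚ̄` modulo `F`, and if `l_1, …, l_s` are ARBITRARY elements of `𝓛(γ)` (any number of
them, chosen after `a`, for instance `p`-adic logarithms of algebraic numbers), linearly independent over
`ℚ̄` modulo `F` and the `y_j`, then no nonzero polynomial `P (X, Y)` with coefficients in `W`, of degree
at most `D` in every `X_j` and of total degree at most `1` in the `Y_j`, vanishes at `(y, l)`.  Here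
`k ≥ k₀`, and `k₀`, `C` and `δ > 0` depend only on `n`, `D`, `m`, `g`, but not on `p`, `λ`, `ζ`, `γ`, `W`
and `X`.

For `g = 0`, `ζ = 0`, `W = ℚ̄` and `X = {0, 1}` this says in particular: the `p`-adic logarithms of `n`
random products of `k` given multiplicatively independent algebraic numbers (independent modulo the
kernel of the logarithm) satisfy no relation of degree at most `D` over the field of algebraic numbers,
and no relation which contains in addition arbitrary further `p`-adic logarithms linearly, with
exponentially few exceptions in `k`.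

Known before (starting files): sums of a fixed number of logarithms with a power saving
(`SumsOfFewLogs`), logarithms of integers with the saving `(log log x) ^ C / log x`
(`LinearInArbitraryLogs`), and for COMPLEX logarithms the random combinations for relations over `ℚ̄`
whose additional logarithms occur with constant coefficients (`MP_60829e_nt.RandomOnlyLinear`).

The proof.  By the hyperplane case of the linear subgroup theorem of Waldschmidt and Roy over the
`p`-adic numbers (`Pool.Agent.W254.PA`) every cube in sufficiently many linearly independent directions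
contains a point which has only formal relations (`Pool.Agent.R350.PD_all`).  So the exceptional
parameters contain no nondegenerate cube, and an iterated Cauchy-Schwarz inequality
(`Pool.Agent.Y918.OL.cube_count`) shows that they are exponentially rare.  The induction on `n` is in
`Pool.Agent.Run7.h788.RandFree`.
-/

set_option autoImplicit false

namespace Pool.Agent.Results.MP_c50dba_nt.RandomCombinations

open Module MvPolynomial

/-- `L` is the Iwasawa `p`-adic logarithm on the algebraic closure of `ℚ_p`. -/
def IsIwasawaLog (p : ℕ) [Fact p.Prime] (L : PadicAlgCl p → PadicAlgCl p) : Prop :=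
  (∀ x y : PadicAlgCl p, x ≠ 0 → y ≠ 0 → L (x * y) = L x + L y) ∧
  L ((p : ℕ) : PadicAlgCl p) = 0 ∧
  ∀ z : PadicAlgCl p, ‖z‖ < 1 →
    HasSum (fun n : ℕ => (-1 : PadicAlgCl p) ^ n * z ^ (n + 1) / ((n : PadicAlgCl p) + 1))
      (L (1 + z))

/-- the linear combinations, with algebraic coefficients, of `1`, of the numbers `γ i` and of the values
of `L` at nonzero algebraic numbers -/
noncomputable def LogForms {p : ℕ} [Fact p.Prime] {g : ℕ} (L : PadicAlgCl p → PadicAlgCl p)
    (γ : Fin g → PadicAlgCl p) :
    Submodule (algebraicClosure ℚ (PadicAlgCl p)) (PadicAlgCl p) :=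
  Submodule.span (algebraicClosure ℚ (PadicAlgCl p))
    (({1} ∪ {z | ∃ α : PadicAlgCl p, α ≠ 0 ∧ IsAlgebraic ℚ α ∧ z = L α}) ∪ Set.range γ)

/-- `y` is independent modulo `F` and has no relation with coefficients in `W`, of degree at most `D`
in `y`, which is linear in elements of `V` independent modulo `F` and `y` -/
def NoRelation {p : ℕ} [Fact p.Prime]
    (V W F : Submodule (algebraicClosure ℚ (PadicAlgCl p)) (PadicAlgCl p)) (D : ℕ) {n : ℕ}
    (y : Fin n → PadicAlgCl p) : Prop :=
  (∀ c : Fin n → algebraicClosure ℚ (PadicAlgCl p), ∑ i, c i • y i ∈ F → ∀ i, c i = 0) ∧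
  ∀ (s : ℕ) (l : Fin s → PadicAlgCl p), (∀ j, l j ∈ V) →
    (∀ c : Fin s → algebraicClosure ℚ (PadicAlgCl p), ∑ j, c j • l j ∈
      F ⊔ Submodule.span (algebraicClosure ℚ (PadicAlgCl p)) (Set.range y) → ∀ j, c j = 0) →
    ∀ P : MvPolynomial (Fin n ⊕ Fin s) (PadicAlgCl p), (∀ β, P.coeff β ∈ W) →
      (∀ i, P.degreeOf (Sum.inl i) ≤ D) → (∀ β ∈ P.support, ∑ j, β (Sum.inr j) ≤ 1) →
      eval (Sum.elim y l) P = 0 → P = 0

open Classical in
/-- **Main result.** -/
theorem result (n D m g : ℕ) : ∃ (k₀ C : ℕ) (δ : ℝ), 0 < δ ∧ ∀ (p : ℕ) [Fact p.Prime]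
    (L : PadicAlgCl p → PadicAlgCl p), IsIwasawaLog p L → ∀ γ : Fin g → PadicAlgCl p,
    ∀ W : Submodule (algebraicClosure ℚ (PadicAlgCl p)) (PadicAlgCl p),
    Module.Finite (algebraicClosure ℚ (PadicAlgCl p)) W →
    finrank (algebraicClosure ℚ (PadicAlgCl p)) W ≤ m →
    ∃ F : Submodule (algebraicClosure ℚ (PadicAlgCl p)) (PadicAlgCl p),
      Module.Finite (algebraicClosure ℚ (PadicAlgCl p)) F ∧
      finrank (algebraicClosure ℚ (PadicAlgCl p)) F ≤ C ∧ F ≤ LogForms L γ ∧
      (W ≤ Submodule.span (algebraicClosure ℚ (PadicAlgCl p)) {(1 : PadicAlgCl p)} →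
        F = Submodule.span (algebraicClosure ℚ (PadicAlgCl p)) {(1 : PadicAlgCl p)}) ∧
      ∀ k ≥ k₀, ∀ lam : Fin n → Fin k → PadicAlgCl p, (∀ j i, lam j i ∈ LogForms L γ) →
        (∀ j, LinearIndependent (algebraicClosure ℚ (PadicAlgCl p)) (lam j)) →
        ∀ ζ : Fin n → PadicAlgCl p, (∀ j, ζ j ∈ LogForms L γ) →
        ∀ X : Finset ℚ, X.Nonempty →
        (((Fintype.piFinset fun _ : Fin n => Fintype.piFinset fun _ : Fin k => X).filter fun a =>
          ¬ NoRelation (LogForms L γ) W F D
            (fun j => ζ j + ∑ i, (a j i : PadicAlgCl p) * lam j i)).card : ℝ) ≤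
          C * (X.card : ℝ) ^ ((n * k : ℝ) - δ * k) := by
  obtain ⟨k₀, C, δ, hδ, h⟩ := Run7.h788.rand_lin D n m (0 + g)
  refine ⟨k₀, C + ((m + 1) * (m + 1 + (0 + g)) * (m + 1) + 1), δ, hδ,
    fun p _ L hL0 γ W hWf hWm => ?_⟩
  have hL : Pool.Agent.W245.PB.IsIwasawaLog p L := ⟨hL0.1, hL0.2.1, hL0.2.2⟩
  have hS := Pool.Agent.R350.setup_padic hL
  have heq : LogForms L γ = Pool.Agent.W254.PA.LtE (Pool.Agent.W254.PA.logs L) ⊔
      Submodule.span (algebraicClosure ℚ (PadicAlgCl p)) (Set.range γ) := by
    rw [LogForms, Submodule.span_union]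
    rfl
  have hfin : FiniteDimensional (algebraicClosure ℚ (PadicAlgCl p))
      (Submodule.span (algebraicClosure ℚ (PadicAlgCl p)) (Set.range γ)) :=
    FiniteDimensional.span_of_finite _ (Set.finite_range γ)
  have hrk : finrank (algebraicClosure ℚ (PadicAlgCl p))
      (Submodule.span (algebraicClosure ℚ (PadicAlgCl p)) (Set.range γ)) ≤ g := by
    have := finrank_range_le_card (R := algebraicClosure ℚ (PadicAlgCl p)) γ
    rwa [Fintype.card_fin] at this
  have hyp : Pool.Agent.R350.HypV (0 + g) (LogForms L γ) := by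
    rw [heq]
    exact hS.hyp.sup _ hrk
  have h1L : (1 : PadicAlgCl p) ∈ LogForms L γ := by
    rw [heq]
    exact Submodule.mem_sup_left hS.one
  obtain ⟨h1, h2, h3, h4⟩ := Pool.Agent.R350.exSp_bound hyp h1L W hWm
  refine ⟨Pool.Agent.R350.exSp (LogForms L γ) W, h1, h2.trans (by omega), h3, h4,
    fun k hk lam hlam hli ζ hζ X hX => ?_⟩
  have h5 := h k hk (algebraicClosure ℚ (PadicAlgCl p)) (PadicAlgCl p) (LogForms L γ) hyp h1L W hWf
    hWm lam hlam hli X hX ζ hζ
  refine le_trans (le_trans (le_of_eq ?_) h5) ?_
  · congr 2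
  · apply mul_le_mul_of_nonneg_right _ (Real.rpow_nonneg (Nat.cast_nonneg _) _)
    exact_mod_cast Nat.le_add_right C _

end Pool.Agent.Results.MP_c50dba_nt.RandomCombinations
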