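import Pool.Agent.N778.VarT
import Pool.Agent.Y787.PInst
import Pool.Agent.Y787.AS.Rat

/-!
# Points with `p`-adic logarithmic coordinates on arbitrary varieties lie on translates of rational spaces, up to a set of bounded dimension

If the `p`-adic logarithms of algebraic numbers which are linearly independent over `ℚ` are
algebraically independent, then a variety `V` in affine `m`-space over the algebraic closure of `ℚ_p`
which is defined over the field `ℚ̄` of algebraic numbers contains a point `y` whose coordinates are
linear forms in `1` and `p`-adic logarithms of algebraic numbers only if it contains the translate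
`y + R`, where `R` is the linear space spanned by a linear space over `ℚ̄` (the smallest one which
contains `y - a` for an algebraic point `a`).  We prove for ARBITRARY varieties that the points `y`
which are not on such translates are rare, unconditionally.

Let `K = ℚ` or `K = ℚ̄`, let `V_t`, `t` in `K ^ τ`, be a family of algebraic sets (zeros of
polynomials `F_s (Y, t)` with ARBITRARY coefficients in the algebraic closure of `ℚ_p`; `τ = 0` is the
case of one algebraic set), and let `ρ ≤ m`.  Call a point `y` exceptional if it is on some `V_t` such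
that `V_t` contains no translate `y + R` with a linear space `R` defined over `K`, of dimension greater
than `ρ`.

* Dimension.  Let `W` be a `K`-space of dimension `N` of linear forms in `1` and `p`-adic logarithms of
  algebraic numbers with coefficients in `K`.  The exceptional points of `W ^ m` lie in an algebraic
  subset, defined over `K`, of dimension at most `ρ N + (m - ρ) (m - 1) + τ`.  (A set lies in an
  algebraic subset of dimension at most `d` if and only if any `d + 1` linear forms satisfy a nontrivial
  polynomial relation on it.)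
* Counting.  Let `l_1, ..., l_N` be `K`-linearly independent linear forms of this kind, for instance
  `ℚ`-linearly independent `p`-adic logarithms of algebraic numbers.  At most
  `κ H ^ (ρ N + (m - ρ) (m - 1) + τ)` of the integer `m × N` matrices `A` with entries of absolute value
  at most `H` are such that `A l` is an exceptional point.
* Lower bound.  If the algebraic set `V` contains a translate `A₀ l + R`, where `A₀` is an integer
  matrix and `R` is spanned by a rational space, then at least `κ⁻¹ H ^ (N dim R)` of these matrices `A`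
  are such that `A l` is in `V`.

For `ρ = 0` this says: outside of the union of the translates of linear spaces of positive dimension,
defined over `K`, which are contained in `V` there is only a set of points of dimension at most
`m (m - 1)`, and only `κ H ^ (m (m - 1))` points `A l`.  This bound does not depend on `N` nor on the
degree of `V`.  All counterexamples to the `p`-adic Schanuel conjecture for logarithms which come from
`V` are among these points.  If `ρ` is the largest dimension of a rational space `R` such that `V`
contains a translate `A₀ l + R`, then the number of the points `A l` on `V` is between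
`κ⁻¹ H ^ (ρ N)` and `κ H ^ (ρ N + (m - ρ) (m - 1))`.

The complex analogue is the starting result `MP_60829e_nt.TranslatesInVarieties`.  Known in the `p`-adic
case (starting files): the quadrics (`QuadraticRelations`) and the relations of degree at most `D`
(`BoundedDegreeStrata`, with a bound which depends on `D`).

The proof (`Pool.Agent.Y787.AS`, `Pool.Agent.N778.VarT`): if the theorem fails, there are a generic
point `y` of a family over an ultrapower and many derivations of the ultrapower of the algebraic closure
of `ℚ_p` which vanish on the `l_j`.  The hyperplane case of the linear subgroup theorem of Waldschmidt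
and Roy over the `p`-adic numbers (`Pool.Agent.W254.PA`) is applied to all derivatives of the equations
at `y`, of all orders: the space of the directions `R` is cut down until no derivative gives a new
condition, and then `y + R` is contained in the variety.
-/

set_option autoImplicit false

open MvPolynomial

namespace Pool.Agent.Results.MP_c50dba_nt.TranslatesInVarieties

/-- `L` restricts to the Iwasawa logarithm: it is additive on products of nonzero numbers, it vanishes
at `p`, and it is given by the usual series on the open unit disc around `1`. -/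
structure IsIwasawaLog (p : ℕ) [Fact p.Prime] (L : PadicAlgCl p → PadicAlgCl p) : Prop where
  mul : ∀ x y : PadicAlgCl p, x ≠ 0 → y ≠ 0 → L (x * y) = L x + L y
  prime : L ((p : ℕ) : PadicAlgCl p) = 0
  ser : ∀ z : PadicAlgCl p, ‖z‖ < 1 →
    HasSum (fun n : ℕ => (-1 : PadicAlgCl p) ^ n * z ^ (n + 1) / ((n : PadicAlgCl p) + 1))
      (L (1 + z))

/-- The linear forms in `1` and the values of `L` at nonzero algebraic numbers with coefficients in
`K`. -/
noncomputable def LogForms {p : ℕ} [Fact p.Prime] (K : Type) [Field K] [Algebra K (PadicAlgCl p)]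
    (L : PadicAlgCl p → PadicAlgCl p) : Submodule K (PadicAlgCl p) :=
  Submodule.span K ({1} ∪ {z | ∃ α : PadicAlgCl p, α ≠ 0 ∧ IsAlgebraic ℚ α ∧ z = L α})

/-- The translate of the space spanned by `R` by the point `y` is contained in the member with
parameter `t` of the family given by the equations `F`. -/
def TranslateIn {p : ℕ} [Fact p.Prime] (K : Type) [Field K] [Algebra K (PadicAlgCl p)] {m τ r : ℕ}
    (F : Fin r → MvPolynomial (Fin m ⊕ Fin τ) (PadicAlgCl p)) (y : Fin m → PadicAlgCl p)
    (t : Fin τ → K) (R : Submodule K (Fin m → K)) : Prop :=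
  ∀ s, ∀ c ∈ Submodule.span (PadicAlgCl p)
      {x : Fin m → PadicAlgCl p | ∃ v ∈ R, x = fun i => algebraMap K (PadicAlgCl p) (v i)},
    eval (Sum.elim (fun i => y i + c i) (fun a => algebraMap K (PadicAlgCl p) (t a))) (F s) = 0

/-- For some parameter `t` over `K` the point `y` is on the member with parameter `t` of the family, and
this member contains no translate of the space spanned by `R` by `y` with `dim R > ρ`. -/
def Exceptional {p : ℕ} [Fact p.Prime] (K : Type) [Field K] [Algebra K (PadicAlgCl p)] {m τ r : ℕ}
    (F : Fin r → MvPolynomial (Fin m ⊕ Fin τ) (PadicAlgCl p)) (ρ : ℕ)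
    (y : Fin m → PadicAlgCl p) : Prop :=
  ∃ t : Fin τ → K,
    (∀ s, eval (Sum.elim y (fun a => algebraMap K (PadicAlgCl p) (t a))) (F s) = 0) ∧
    ∀ R : Submodule K (Fin m → K), TranslateIn K F y t R → Module.finrank K R ≤ ρ

/-- The bounds for the dimension and for the number of the exceptional points. -/
def UpperBounds {p : ℕ} [Fact p.Prime] (K : Type) [Field K] [Algebra K (PadicAlgCl p)]
    (L : PadicAlgCl p → PadicAlgCl p) : Prop :=
  ∀ (m τ r ρ : ℕ), ρ ≤ m → ∀ F : Fin r → MvPolynomial (Fin m ⊕ Fin τ) (PadicAlgCl p),
    (∀ (W : Submodule K (PadicAlgCl p)) [FiniteDimensional K W], W ≤ LogForms K L →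
      ∀ φ : Fin (ρ * Module.finrank K W + (m - ρ) * (m - 1) + τ + 1) → ((Fin m → W) →ₗ[K] K),
      ∃ P : MvPolynomial (Fin (ρ * Module.finrank K W + (m - ρ) * (m - 1) + τ + 1)) K, P ≠ 0 ∧
        ∀ y : Fin m → W, Exceptional K F ρ (fun i => (y i : PadicAlgCl p)) →
          eval (fun i => φ i y) P = 0) ∧
    ∀ (N : ℕ) (l : Fin N → PadicAlgCl p), (∀ j, l j ∈ LogForms K L) → LinearIndependent K l →
      ∃ κ : ℕ, ∀ H : ℕ, 1 ≤ H →
        Set.ncard {A : Fin m → Fin N → ℤ | (∀ i j, |A i j| ≤ H) ∧
          Exceptional K F ρ (fun i => ∑ j, (A i j : PadicAlgCl p) * l j)} ≤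
        κ * H ^ (ρ * N + (m - ρ) * (m - 1) + τ)

theorem exc_of {p : ℕ} [Fact p.Prime] {K : Type} [Field K] [Algebra K (PadicAlgCl p)] {m τ r : ℕ}
    {F : Fin r → MvPolynomial (Fin m ⊕ Fin τ) (PadicAlgCl p)} {ρ : ℕ} {y : Fin m → PadicAlgCl p}
    (h : Exceptional K F ρ y) : N778.VarT.Exc K F ρ y := by
  obtain ⟨t, h1, h2⟩ := h
  refine ⟨t, h1, ?_⟩
  rintro ⟨R, h3, h4⟩
  exact absurd (h2 R h4) (by omega)

theorem upper_of {p : ℕ} [Fact p.Prime] {K : Type} [Field K] [CharZero K] [Countable K]
    [Algebra K (PadicAlgCl p)] {L : PadicAlgCl p → PadicAlgCl p}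
    (hL : Pool.Agent.W254.PA.Hyp (LogForms K L)) : UpperBounds K L := by
  have := Pool.Agent.Y787.uncountable_padicAlgCl (p := p)
  intro m τ r ρ hρ F
  refine ⟨fun W _ hW φ => ?_, fun N l hl hli => ?_⟩
  · obtain ⟨P, h1, h2⟩ := N778.VarT.exc_dim hL Pool.Agent.Y787.AS.wts_pt W hW hρ F φ
    exact ⟨P, h1, fun y hy => h2 y (exc_of hy)⟩
  · obtain ⟨κ, hκ⟩ := N778.VarT.exc_count hL Pool.Agent.Y787.AS.wts_pt hρ l hl hli F
    refine ⟨κ, fun H hH => le_trans (Set.ncard_le_ncard ?_ ?_) (hκ H hH)⟩
    · rintro A ⟨h1, h2⟩
      exact ⟨h1, exc_of h2⟩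
    · exact Pool.Agent.Y787.AS.box_finite' H _

/-- **Main result.** -/
theorem result (p : ℕ) [Fact p.Prime] (L : PadicAlgCl p → PadicAlgCl p) (hL : IsIwasawaLog p L) :
    UpperBounds ℚ L ∧ UpperBounds (algebraicClosure ℚ (PadicAlgCl p)) L ∧
    ∀ (m τ r N : ℕ) (F : Fin r → MvPolynomial (Fin m ⊕ Fin τ) (PadicAlgCl p))
      (l : Fin N → PadicAlgCl p) (A₀ : Fin m → Fin N → ℤ) (t : Fin τ → ℚ)
      (R : Submodule ℚ (Fin m → ℚ)),
      TranslateIn ℚ F (fun i => ∑ j, (A₀ i j : PadicAlgCl p) * l j) t R →
      ∃ κ : ℕ, 1 ≤ κ ∧ ∀ H : ℕ, κ ≤ H → H ^ (Module.finrank ℚ R * N) ≤ κ *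
        Set.ncard {A : Fin m → Fin N → ℤ | (∀ i j, |A i j| ≤ H) ∧
          ∀ s, eval (Sum.elim (fun i => ∑ j, (A i j : PadicAlgCl p) * l j)
            (fun a => algebraMap ℚ (PadicAlgCl p) (t a))) (F s) = 0} := by
  have hL' : Pool.Agent.W245.PB.IsIwasawaLog p L := ⟨hL.mul, hL.prime, hL.ser⟩
  refine ⟨upper_of (Pool.Agent.Y787.AS.hypQ_padic hL'), ?_, ?_⟩
  · have := N778.VarT.countable_QC (E := PadicAlgCl p)
    exact upper_of (Pool.Agent.Y787.hypC_padic hL').hyp
  · intro m τ r N F l A₀ t R hR
    exact N778.VarT.lower l F A₀ (fun a => algebraMap ℚ (PadicAlgCl p) (t a)) R hR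

end Pool.Agent.Results.MP_c50dba_nt.TranslatesInVarieties
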